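import Pool.Agent.Helper29_CF.Stmt

/-!
# FIN7: final assembly for `r ≥ 7`
-/

set_option autoImplicit false
set_option linter.unusedSectionVars false

namespace Pool.Agent.Helper29_CF.H46

open Finset Pool.Agent.Helper29_CF

section

variable {V B : Type} [DecidableEq V] [DecidableEq B]

/-- two different points of a block in `W`: at most one point of the block is outside -/
theorem one_out {A : Finset V} {W : Finset V} (h3 : A.card = 3) {x y : V} (hxA : x ∈ A)
    (hyA : y ∈ A) (hxy : x ≠ y) (hx : x ∈ W) (hy : y ∈ W) (t : V → Bool) :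
    ∃ κ : Bool, ∀ z ∈ A, z ∉ W → t z = κ := by
  have h1 : ((A.erase x).erase y).card = 1 := by
    rw [card_erase_of_mem (mem_erase.2 ⟨hxy.symm, hyA⟩), card_erase_of_mem hxA, h3]
  obtain ⟨w, hw⟩ := card_eq_one.1 h1
  refine ⟨t w, fun z hz hzW => ?_⟩
  have h2 : z ∈ (A.erase x).erase y := by
    refine mem_erase.2 ⟨?_, mem_erase.2 ⟨?_, hz⟩⟩
    · rintro rfl
      exact hzW hy
    · rintro rfl
      exact hzW hx
  rw [hw, mem_singleton] at h2
  rw [h2]

theorem pasch_three {s : B → Finset V} {L : Finset B} (hL : Pasch s L) {a b c : B} (ha : a ∈ L)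
    (hb : b ∈ L) (hc : c ∈ L) (hab : a ≠ b) (hac : a ≠ c) (hbc : b ≠ c) {x : V} (h1 : x ∈ s a)
    (h2 : x ∈ s b) (h3 : x ∈ s c) : False := by
  have h4 : ({a, b, c} : Finset B) ⊆ L.filter (fun b => x ∈ s b) := by
    intro z hz
    simp only [mem_insert, mem_singleton] at hz
    rcases hz with rfl | rfl | rfl
    · exact mem_filter.2 ⟨ha, h1⟩
    · exact mem_filter.2 ⟨hb, h2⟩
    · exact mem_filter.2 ⟨hc, h3⟩
  have h5 : ({a, b, c} : Finset B).card = 3 := card_eq_three.2 ⟨a, b, c, hab, hac, hbc, rfl⟩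
  have h6 := card_le_card h4
  have h7 := hL.2.2.2 x
  unfold deg at h7
  omega

theorem pasch_other {s : B → Finset V} {L : Finset B} (hL : Pasch s L) {a : B} (ha : a ∈ L)
    {x : V} (hx : x ∈ s a) : ∃ b ∈ L, b ≠ a ∧ x ∈ s b := by
  have h7 := hL.2.2.2 x
  unfold deg at h7
  have h1 : a ∈ L.filter (fun b => x ∈ s b) := mem_filter.2 ⟨ha, hx⟩
  have h2 : 0 < (L.filter (fun b => x ∈ s b)).card := card_pos.2 ⟨a, h1⟩
  have h3 : 1 < (L.filter (fun b => x ∈ s b)).card := by omega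
  obtain ⟨b, hb, hne⟩ := exists_mem_ne h3 a
  rw [mem_filter] at hb
  exact ⟨b, hb.1, hne, hb.2⟩

theorem pasch_inter {s : B → Finset V} {L : Finset B} (hL : Pasch s L) {a b : B} (ha : a ∈ L)
    (hb : b ∈ L) (hab : a ≠ b) : ∃ x, x ∈ s a ∧ x ∈ s b := by
  have h1 := hL.2.2.1 a ha b hb hab
  obtain ⟨x, hx⟩ := card_pos.1 (by omega : 0 < (s a ∩ s b).card)
  exact ⟨x, (mem_inter.1 hx).1, (mem_inter.1 hx).2⟩

theorem pasch_inter_eq {s : B → Finset V} {L : Finset B} (hL : Pasch s L) {a b : B} (ha : a ∈ L)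
    (hb : b ∈ L) (hab : a ≠ b) {x y : V} (h1 : x ∈ s a) (h2 : x ∈ s b) (h3 : y ∈ s a)
    (h4 : y ∈ s b) : x = y := by
  have h5 := hL.2.2.1 a ha b hb hab
  obtain ⟨z, hz⟩ := card_eq_one.1 h5
  have h6 : x ∈ s a ∩ s b := mem_inter.2 ⟨h1, h2⟩
  have h7 : y ∈ s a ∩ s b := mem_inter.2 ⟨h3, h4⟩
  rw [hz, mem_singleton] at h6 h7
  rw [h6, h7]

theorem cluster_sub {s : B → Finset V} {K : Finset B} {W : Finset V} {𝒞 : Finset (Finset B)}
    (hW : IsCluster s K W 𝒞) {L : Finset B} (hL : L ∈ 𝒞) {b : B} (hb : b ∈ L) : s b ⊆ W := by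
  intro x hx
  rw [hW.eq]
  exact mem_biUnion.2 ⟨L, hL, mem_biUnion.2 ⟨b, hb, hx⟩⟩

/-- choice of the new block -/
theorem new_block {s : B → Finset V} {K : Finset B} {W U : Finset V} {𝒞 : Finset (Finset B)}
    (h3 : ∀ b, (s b).card = 3) (hW : IsCluster s K W 𝒞) {L : Finset B} (hL : L ∈ 𝒞)
    (hbad : ¬ BadP s L) (hWU : W ⊆ U) (t : V → Bool) :
    ∃ (g : B) (κ : Bool), (∀ L ∈ 𝒞, g ∉ L) ∧ ¬ Disjoint (s g) W ∧
      ∀ y ∈ s g, y ∉ U → t y = κ := by
  obtain ⟨hP, hLK⟩ := hW.pasch L hL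
  have hsub : pts s L ⊆ W := by
    intro x hx
    obtain ⟨b, hb, hxb⟩ := mem_biUnion.1 hx
    exact cluster_sub hW hL hb hxb
  have hred : ∀ {g : B} {x y : V}, x ∈ s g → y ∈ s g → x ≠ y → x ∈ W → y ∈ W →
      (∀ L ∈ 𝒞, g ∉ L) → ∃ (g : B) (κ : Bool), (∀ L ∈ 𝒞, g ∉ L) ∧ ¬ Disjoint (s g) W ∧
      ∀ y ∈ s g, y ∉ U → t y = κ := by
    intro g x y hx hy hxy hxW hyW hg
    obtain ⟨κ, hκ⟩ := one_out (h3 g) hx hy hxy hxW hyW t
    exact ⟨g, κ, hg, not_disjoint_iff.2 ⟨x, hx, hxW⟩,
      fun z hz hzU => hκ z hz fun h => hzU (hWU h)⟩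
  by_cases hi : ∃ b, b ∉ L ∧ 2 ≤ (s b ∩ pts s L).card
  · obtain ⟨b, hbL, hb2⟩ := hi
    obtain ⟨x, hx, y, hy, hxy⟩ := one_lt_card.1 (by omega : 1 < (s b ∩ pts s L).card)
    rw [mem_inter] at hx hy
    refine hred hx.1 hy.1 hxy (hsub hx.2) (hsub hy.2) ?_
    intro L0 hL0 hbL0
    have h4 := hW.one L hL b ((hW.pasch L0 hL0).2 hbL0) hbL
    omega
  · have hii : ∃ L', Pasch s L' ∧ L' ≠ L ∧ ¬ Disjoint L L' := by
      by_contra hcon
      push Not at hcon hi
      exact hbad ⟨hP, fun b hb => by have := hi b hb; omega, hcon⟩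
    obtain ⟨L', hP', hne, hnd⟩ := hii
    obtain ⟨l, hl, hl'⟩ := not_disjoint_iff.1 hnd
    have hlW : s l ⊆ W := cluster_sub hW hL hl
    have hcard : (L'.erase l).card = 3 := by rw [card_erase_of_mem hl', hP'.1]
    -- some line of `L'` is not a line of the cluster
    have hex : ∃ m ∈ L'.erase l, ∀ L0 ∈ 𝒞, m ∉ L0 := by
      by_contra hcon
      push Not at hcon
      have h4 : L' ⊆ K := by
        intro m hm
        by_cases hml : m = l
        · rw [hml]
          exact hLK hl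
        · obtain ⟨L0, hL0, hm0⟩ := hcon m (mem_erase.2 ⟨hml, hm⟩)
          exact (hW.pasch L0 hL0).2 hm0
      exact hnd (hW.iso L hL L' hP' h4 hne)
    by_cases hA : ∃ m ∈ L'.erase l, ∃ L0 ∈ 𝒞, m ∈ L0
    · obtain ⟨m, hm, hm0⟩ := hex
      obtain ⟨m', hm', L0, hL0, hmL0⟩ := hA
      have hmm : m ≠ m' := by
        rintro rfl
        exact hm0 L0 hL0 hmL0
      rw [mem_erase] at hm hm'
      obtain ⟨x, hx1, hx2⟩ := pasch_inter hP' hm.2 hl' hm.1
      obtain ⟨y, hy1, hy2⟩ := pasch_inter hP' hm.2 hm'.2 hmm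
      have hxy : x ≠ y := by
        rintro rfl
        exact pasch_three hP' hm.2 hl' hm'.2 hm.1 hmm hm'.1.symm hx1 hx2 hy2
      exact hred hx1 hy1 hxy (hlW hx2) (cluster_sub hW hL0 hmL0 hy2) hm0
    · push Not at hA
      obtain ⟨m1, m2, m3, h12, h13, h23, hM⟩ := card_eq_three.1 hcard
      have e1 : m1 ∈ L'.erase l := by rw [hM]; simp
      have e2 : m2 ∈ L'.erase l := by rw [hM]; simp
      have e3 : m3 ∈ L'.erase l := by rw [hM]; simp
      have f1 := mem_erase.1 e1
      have f2 := mem_erase.1 e2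
      have f3 := mem_erase.1 e3
      obtain ⟨b, hb1, hb2⟩ := pasch_inter hP' f1.2 f2.2 h12
      obtain ⟨c, hc1, hc3⟩ := pasch_inter hP' f1.2 f3.2 h13
      obtain ⟨d, hd2, hd3⟩ := pasch_inter hP' f2.2 f3.2 h23
      have hmem : ∀ x ∈ L', x = l ∨ x = m1 ∨ x = m2 ∨ x = m3 := by
        intro x hx
        by_cases hxl : x = l
        · exact Or.inl hxl
        · right
          have : x ∈ L'.erase l := mem_erase.2 ⟨hxl, hx⟩
          rw [hM] at this
          simpa using this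
      have s1 : ∀ y ∈ s m1, y ∈ W ∨ y = b ∨ y = c := by
        intro y hy
        obtain ⟨z, hz, hzne, hyz⟩ := pasch_other hP' f1.2 hy
        rcases hmem z hz with rfl | rfl | rfl | rfl
        · exact Or.inl (hlW hyz)
        · exact absurd rfl hzne
        · exact Or.inr (Or.inl (pasch_inter_eq hP' f1.2 f2.2 h12 hy hyz hb1 hb2))
        · exact Or.inr (Or.inr (pasch_inter_eq hP' f1.2 f3.2 h13 hy hyz hc1 hc3))
      have s2 : ∀ y ∈ s m2, y ∈ W ∨ y = b ∨ y = d := by
        intro y hy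
        obtain ⟨z, hz, hzne, hyz⟩ := pasch_other hP' f2.2 hy
        rcases hmem z hz with rfl | rfl | rfl | rfl
        · exact Or.inl (hlW hyz)
        · exact Or.inr (Or.inl (pasch_inter_eq hP' f2.2 f1.2 h12.symm hy hyz hb2 hb1))
        · exact absurd rfl hzne
        · exact Or.inr (Or.inr (pasch_inter_eq hP' f2.2 f3.2 h23 hy hyz hd2 hd3))
      have s3 : ∀ y ∈ s m3, y ∈ W ∨ y = c ∨ y = d := by
        intro y hy
        obtain ⟨z, hz, hzne, hyz⟩ := pasch_other hP' f3.2 hy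
        rcases hmem z hz with rfl | rfl | rfl | rfl
        · exact Or.inl (hlW hyz)
        · exact Or.inr (Or.inl (pasch_inter_eq hP' f3.2 f1.2 h13.symm hy hyz hc3 hc1))
        · exact Or.inr (Or.inr (pasch_inter_eq hP' f3.2 f2.2 h23.symm hy hyz hd3 hd2))
        · exact absurd rfl hzne
      have key : ∀ {m : B} {x y : V}, m ∈ L'.erase l → (∀ z ∈ s m, z ∈ W ∨ z = x ∨ z = y) →
          (x ∈ U ∨ y ∈ U ∨ t x = t y) → ∃ (g : B) (κ : Bool), (∀ L ∈ 𝒞, g ∉ L) ∧
          ¬ Disjoint (s g) W ∧ ∀ y ∈ s g, y ∉ U → t y = κ := by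
        intro m x y hm hz hxy
        have hm' := mem_erase.1 hm
        obtain ⟨w, hw1, hw2⟩ := pasch_inter hP' hm'.2 hl' hm'.1
        have hdis : ¬ Disjoint (s m) W := not_disjoint_iff.2 ⟨w, hw1, hlW hw2⟩
        rcases hxy with h | h | h
        · refine ⟨m, t y, hA m hm, hdis, fun z hz1 hzU => ?_⟩
          rcases hz z hz1 with h4 | h4 | h4
          · exact absurd (hWU h4) hzU
          · rw [h4] at hzU
            exact absurd h hzU
          · rw [h4]
        · refine ⟨m, t x, hA m hm, hdis, fun z hz1 hzU => ?_⟩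
          rcases hz z hz1 with h4 | h4 | h4
          · exact absurd (hWU h4) hzU
          · rw [h4]
          · rw [h4] at hzU
            exact absurd h hzU
        · refine ⟨m, t x, hA m hm, hdis, fun z hz1 hzU => ?_⟩
          rcases hz z hz1 with h4 | h4 | h4
          · exact absurd (hWU h4) hzU
          · rw [h4]
          · rw [h4, h]
      by_cases hbc : t b = t c
      · exact key e1 s1 (Or.inr (Or.inr hbc))
      · by_cases hbd : t b = t d
        · exact key e2 s2 (Or.inr (Or.inr hbd))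
        · have hcd : t c = t d := by
            revert hbc hbd
            cases t b <;> cases t c <;> cases t d <;> simp
          exact key e3 s3 (Or.inr (Or.inr hcd))

/-- colour degrees of a disjoint union -/
theorem cdeg_union {s : B → Finset V} {C L : Finset B} (h : Disjoint C L) (c cL : B → Bool)
    (κ : Bool) (x : V) :
    cdeg s (C ∪ L) (fun b => if b ∈ L then cL b else c b) κ x =
      cdeg s C c κ x + cdeg s L cL κ x := by
  unfold cdeg
  rw [filter_union, card_union_of_disjoint]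
  · congr 1
    · congr 1
      refine filter_congr fun b hb => ?_
      have : b ∉ L := disjoint_left.1 h hb
      simp only [this, if_false]
    · congr 1
      refine filter_congr fun b hb => ?_
      simp only [hb, if_true]
  · exact disjoint_filter_filter h

theorem cdeg_zero {s : B → Finset V} {C : Finset B} {c : B → Bool} {κ : Bool} {x : V}
    (h : ∀ b ∈ C, x ∉ s b) : cdeg s C c κ x = 0 := by
  unfold cdeg
  rw [card_eq_zero, filter_eq_empty_iff]
  intro b hb hx
  exact h b hb hx.1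

theorem cdeg_one {s : B → Finset V} {C : Finset B} {c : B → Bool} {x : V} {b0 : B}
    (hb0 : b0 ∈ C) (hx : x ∈ s b0) (h : ∀ b ∈ C, x ∈ s b → b = b0) :
    cdeg s C c (c b0) x = 1 ∧ cdeg s C c (!(c b0)) x = 0 := by
  unfold cdeg
  constructor
  · rw [card_eq_one]
    refine ⟨b0, ?_⟩
    ext b
    rw [mem_filter, mem_singleton]
    constructor
    · rintro ⟨h1, h2, _⟩
      exact h b h1 h2
    · rintro rfl
      exact ⟨hb0, hx, rfl⟩
  · rw [card_eq_zero, filter_eq_empty_iff]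
    rintro b hb ⟨h1, h2⟩
    rw [h b hb h1] at h2
    revert h2
    cases c b0 <;> simp

end

/-- state of the final assembly -/
structure Inv {V B : Type} [DecidableEq V] [DecidableEq B] (s : B → Finset V)
    (fam : Finset V → Finset (Finset B)) (C : Finset B) (c : B → Bool) (X : Finset (Finset V)) :
    Prop where
  sat : ∀ x, (∀ W ∈ X, x ∉ W) → Sat s C c x
  line : ∀ W ∈ X, ∀ L ∈ fam W, ∀ b ∈ C, b ∉ L
  uniq : ∀ W ∈ X, ∀ b ∈ C, ∀ b' ∈ C, ¬ Disjoint (s b) W → ¬ Disjoint (s b') W → b = b'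

section

variable {V B : Type} [Fintype V] [DecidableEq V] [Fintype B] [DecidableEq B]

theorem stepA {s : B → Finset V} {K : Finset B} {T : Finset (Finset V)}
    {fam : Finset V → Finset (Finset B)} (h3 : ∀ b, (s b).card = 3)
    (hT : ∀ W ∈ T, IsCluster s K W (fam W))
    (hdis : ∀ W ∈ T, ∀ W' ∈ T, W ≠ W' → Disjoint W W') {C : Finset B} {c : B → Bool}
    {X : Finset (Finset V)} (hX : X ⊆ T) (hI : Inv s fam C c X) {W : Finset V} (hW : W ∈ X)
    {b0 : B} (hb0 : b0 ∈ C) (htouch : ¬ Disjoint (s b0) W) :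
    ∃ (C' : Finset B) (c' : B → Bool), Inv s fam C' c' (X.erase W) := by
  have hcl := hT W (hX hW)
  have hne : (s b0 ∩ W).Nonempty := by
    obtain ⟨x, hx1, hx2⟩ := not_disjoint_iff.1 htouch
    exact ⟨x, mem_inter.2 ⟨hx1, hx2⟩⟩
  have hcd : (s b0 ∩ W).card ≤ 3 := (card_le_card inter_subset_left).trans (h3 b0).le
  obtain ⟨L, hL, cL, hLc⟩ := hcl.rob.compl (s b0 ∩ W) inter_subset_right hne hcd (c b0)
  have hLW : ∀ b ∈ L, s b ⊆ W := by
    intro b hb
    obtain ⟨L0, hL0, hbL0⟩ := mem_biUnion.1 (hL hb)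
    exact cluster_sub hcl hL0 hbL0
  have hCL : Disjoint C L := by
    rw [disjoint_left]
    intro b hb hbL
    obtain ⟨L0, hL0, hbL0⟩ := mem_biUnion.1 (hL hbL)
    exact hI.line W hW L0 hL0 b hb hbL0
  have hLd : ∀ W' ∈ X.erase W, ∀ b ∈ L, Disjoint (s b) W' := by
    intro W' hW' b hb
    rw [mem_erase] at hW'
    exact disjoint_of_subset_left (hLW b hb) (hdis W (hX hW) W' (hX hW'.2) hW'.1.symm)
  refine ⟨C ∪ L, fun b => if b ∈ L then cL b else c b, ?_, ?_, ?_⟩
  · intro x hx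
    by_cases hxW : x ∈ W
    · by_cases hxb : x ∈ s b0
      · have h1 := cdeg_one (c := c) hb0 hxb (fun b hb hxb' => hI.uniq W hW b hb b0 hb0
          (not_disjoint_iff.2 ⟨x, hxb', hxW⟩) htouch)
        rcases (hLc x hxW).2 (mem_inter.2 ⟨hxb, hxW⟩) with h2 | h2
        · refine ⟨c b0, ?_⟩
          rw [cdeg_union hCL, h1.1, h2]
        · refine ⟨!(c b0), ?_⟩
          rw [cdeg_union hCL, h1.2, h2]
      · obtain ⟨κ, hκ⟩ := (hLc x hxW).1 (fun h => hxb (mem_inter.1 h).1)
        refine ⟨κ, ?_⟩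
        rw [cdeg_union hCL, hκ, cdeg_zero]
        intro b hb hxb'
        apply hxb
        rw [← hI.uniq W hW b hb b0 hb0 (not_disjoint_iff.2 ⟨x, hxb', hxW⟩) htouch]
        exact hxb'
    · obtain ⟨κ, hκ⟩ := hI.sat x (fun W' hW' => by
        by_cases h : W' = W
        · rw [h]
          exact hxW
        · exact hx W' (mem_erase.2 ⟨h, hW'⟩))
      refine ⟨κ, ?_⟩
      rw [cdeg_union hCL, hκ, cdeg_zero (C := L)]
      intro b hb hxb
      exact hxW (hLW b hb hxb)
  · intro W' hW' L' hL' b hb hbL'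
    rcases mem_union.1 hb with h | h
    · exact hI.line W' (mem_of_mem_erase hW') L' hL' b h hbL'
    · have h1 := cluster_sub (hT W' (hX (mem_of_mem_erase hW'))) hL' hbL'
      have h2 := hLd W' hW' b h
      have h4 : s b = ∅ := by
        have := disjoint_of_subset_right h1 h2
        exact disjoint_self_iff_empty _ |>.1 this
      have h5 := h3 b
      rw [h4] at h5
      simp at h5
  · intro W' hW' b hb b' hb' h1 h2
    have h4 : ∀ b ∈ C ∪ L, ¬ Disjoint (s b) W' → b ∈ C := by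
      intro b hb h
      rcases mem_union.1 hb with h5 | h5
      · exact h5
      · exact absurd (hLd W' hW' b h5) h
    exact hI.uniq W' (mem_of_mem_erase hW') b (h4 b hb h1) b' (h4 b' hb' h2) h1 h2

theorem stepB {s : B → Finset V} {K : Finset B} {T : Finset (Finset V)}
    {fam : Finset V → Finset (Finset B)} (h3 : ∀ b, (s b).card = 3)
    (hT : ∀ W ∈ T, IsCluster s K W (fam W)) (hbad : ∀ W ∈ T, ∃ L ∈ fam W, ¬ BadP s L)
    (hdis : ∀ W ∈ T, ∀ W' ∈ T, W ≠ W' → Disjoint W W') {C : Finset B} {c : B → Bool}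
    {X : Finset (Finset V)} (hX : X ⊆ T) (hI : Inv s fam C c X)
    (hun : ∀ W ∈ X, ∀ b ∈ C, Disjoint (s b) W) {W : Finset V} (hW : W ∈ X) :
    ∃ (C' : Finset B) (c' : B → Bool), Inv s fam C' c' X ∧ ∃ b0 ∈ C', ¬ Disjoint (s b0) W := by
  classical
  obtain ⟨L, hL, hLb⟩ := hbad W (hX hW)
  have ht : ∃ t : V → Bool, ∀ x, (∀ W ∈ X, x ∉ W) → cdeg s C c (!(t x)) x = 1 := by
    refine ⟨fun x => if h : Sat s C c x then !(Classical.choose h) else true, fun x hx => ?_⟩
    have h := hI.sat x hx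
    simp only [dif_pos h, Bool.not_not]
    exact Classical.choose_spec h
  obtain ⟨t, ht⟩ := ht
  obtain ⟨g, κ, hg1, hg2, hg3⟩ := new_block (U := X.biUnion id) h3 (hT W (hX hW)) hL hLb
    (fun x hx => mem_biUnion.2 ⟨W, hW, hx⟩) t
  have hgC : g ∉ C := fun h => hg2 (hun W hW g h)
  have hdj : Disjoint C {g} := disjoint_singleton_right.2 hgC
  refine ⟨C ∪ {g}, fun b => if b ∈ ({g} : Finset B) then (fun _ => κ) b else c b,
    ⟨?_, ?_, ?_⟩, g, mem_union_right _ (mem_singleton_self g), hg2⟩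
  · intro x hx
    by_cases hxg : x ∈ s g
    · have h1 := hg3 x hxg (fun h => by
        obtain ⟨W', hW', hxW'⟩ := mem_biUnion.1 h
        exact hx W' hW' hxW')
      have h2 := ht x hx
      rw [h1] at h2
      refine ⟨!κ, ?_⟩
      rw [cdeg_union hdj, h2]
      have h4 := (cdeg_one (s := s) (C := {g}) (c := fun _ => κ) (x := x) (mem_singleton_self g)
        hxg (fun b hb _ => mem_singleton.1 hb)).2
      rw [h4]
    · obtain ⟨κ', hκ'⟩ := hI.sat x hx
      refine ⟨κ', ?_⟩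
      rw [cdeg_union hdj, hκ', cdeg_zero (C := {g})]
      intro b hb
      rw [mem_singleton.1 hb]
      exact hxg
  · intro W' hW' L' hL' b hb hbL'
    rcases mem_union.1 hb with h | h
    · exact hI.line W' hW' L' hL' b h hbL'
    · rw [mem_singleton.1 h] at hbL'
      by_cases hWW : W' = W
      · rw [hWW] at hL'
        exact hg1 L' hL' hbL'
      · have h1 := cluster_sub (hT W' (hX hW')) hL' hbL'
        exact hg2 (disjoint_of_subset_left h1 (hdis W' (hX hW') W (hX hW) hWW))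
  · intro W' hW' b hb b' hb' h1 h2
    have h4 : ∀ b ∈ C ∪ {g}, ¬ Disjoint (s b) W' → b = g := by
      intro b hb h
      rcases mem_union.1 hb with h5 | h5
      · exact absurd (hun W' hW' b h5) h
      · exact mem_singleton.1 h5
    rw [h4 b hb h1, h4 b' hb' h2]

end

theorem fin7 : Fin7Stmt := by
  intro V B _ _ _ _ s K T fam C c h3 hT hbad hdis hCK hCL hsat
  have main : ∀ (n : ℕ) (X : Finset (Finset V)) (C : Finset B) (c : B → Bool), X.card = n →
      X ⊆ T → Inv s fam C c X → ∃ (C' : Finset B) (c' : B → Bool), ∀ x, Sat s C' c' x := by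
    intro n
    induction n with
    | zero =>
      intro X C c hn _ hI
      rw [card_eq_zero] at hn
      refine ⟨C, c, fun x => hI.sat x fun W hW => ?_⟩
      rw [hn] at hW
      exact absurd hW (notMem_empty W)
    | succ n ih =>
      intro X C c hn hX hI
      have hne : X.Nonempty := card_pos.1 (by omega)
      have fin : ∀ (C : Finset B) (c : B → Bool) (W : Finset V), Inv s fam C c X → W ∈ X →
          (∃ b0 ∈ C, ¬ Disjoint (s b0) W) →
          ∃ (C' : Finset B) (c' : B → Bool), ∀ x, Sat s C' c' x := by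
        intro C c W hI hW ⟨b0, hb0, htouch⟩
        obtain ⟨C', c', hI'⟩ := stepA h3 hT hdis hX hI hW hb0 htouch
        refine ih (X.erase W) C' c' ?_ ((erase_subset W X).trans hX) hI'
        rw [card_erase_of_mem hW, hn]
        rfl
      by_cases ht : ∃ W ∈ X, ∃ b0 ∈ C, ¬ Disjoint (s b0) W
      · obtain ⟨W, hW, h⟩ := ht
        exact fin C c W hI hW h
      · push Not at ht
        obtain ⟨W, hW⟩ := hne
        obtain ⟨C', c', hI', h⟩ := stepB h3 hT hbad hdis hX hI ht hW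
        exact fin C' c' W hI' hW h
  refine main T.card T C c rfl (Subset.refl T) ⟨hsat, ?_, ?_⟩
  · intro W hW L hL b hb hbL
    exact disjoint_left.1 (hCL W hW L hL) hb hbL
  · intro W hW b hb b' hb' h1 h2
    have hcl := hT W hW
    obtain ⟨e, he⟩ := hcl.closed
    rw [← hcl.eq] at he
    have h4 : ∀ b ∈ C, ¬ Disjoint (s b) W → some b = e := by
      intro b hb h
      rcases he b (hCK hb) h with ⟨L, hL, hbL⟩ | h5
      · exact absurd hbL (disjoint_left.1 (hCL W hW L hL) hb)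
      · exact h5.1
    have h5 := (h4 b hb h1).trans (h4 b' hb' h2).symm
    exact Option.some_injective _ h5

end Pool.Agent.Helper29_CF.H46
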