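import Pool.Agent.Helper29_CF.Stmt

/-!
# LAB: labels of the points of `S`
-/

set_option autoImplicit false
set_option linter.unusedSectionVars false

namespace Pool.Agent.Helper29_CF.H46

open Finset Pool.Agent.Helper29_CF

section

variable {V B : Type} [DecidableEq V] [DecidableEq B]

/-- the neighbours of `w` in the conflict graph -/
def nb (s : B → Finset V) (G : Finset B) (S : Finset V) (w : V) : Finset V :=
  (G.filter (fun g => w ∈ s g)).biUnion (fun g => (s g ∩ S).erase w)

theorem mem_nb {s : B → Finset V} {G : Finset B} {S : Finset V} {w w' : V} :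
    w' ∈ nb s G S w ↔ ∃ g ∈ G, w ∈ s g ∧ w' ≠ w ∧ w' ∈ s g ∧ w' ∈ S := by
  unfold nb
  simp only [mem_biUnion, mem_filter, mem_erase, mem_inter]
  constructor
  · rintro ⟨g, ⟨h1, h2⟩, h3, h4, h5⟩
    exact ⟨g, h1, h2, h3, h4, h5⟩
  · rintro ⟨g, h1, h2, h3, h4, h5⟩
    exact ⟨g, ⟨h1, h2⟩, h3, h4, h5⟩

theorem nb_card {s : B → Finset V} {G : Finset B} {S : Finset V}
    (h2 : ∀ g ∈ G, (s g ∩ S).card ≤ 2) {w : V} (hw : w ∈ S) :
    (nb s G S w).card ≤ deg s G w := by
  unfold nb deg
  refine (card_biUnion_le_card_mul _ _ 1 ?_).trans (by rw [mul_one])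
  intro g hg
  rw [mem_filter] at hg
  have h3 : w ∈ s g ∩ S := mem_inter.2 ⟨hg.2, hw⟩
  rw [card_erase_of_mem h3]
  have := h2 g hg.1
  omega

theorem nb_card_one {s : B → Finset V} {G : Finset B} {S : Finset V}
    (h2 : ∀ g ∈ G, (s g ∩ S).card ≤ 2) {w : V} (hw : w ∈ S) (hd : deg s G w ≤ 2) {g0 : B}
    (hg0 : g0 ∈ G) (hs : s g0 ∩ S = {w}) : (nb s G S w).card ≤ 1 := by
  have hwg : w ∈ s g0 := by
    have : w ∈ s g0 ∩ S := by rw [hs]; exact mem_singleton_self w
    exact (mem_inter.1 this).1
  have h3 : nb s G S w ⊆ nb s (G.erase g0) S w := by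
    intro w' hw'
    rw [mem_nb] at hw' ⊢
    obtain ⟨g, h4, h5, h6, h7, h8⟩ := hw'
    refine ⟨g, mem_erase.2 ⟨?_, h4⟩, h5, h6, h7, h8⟩
    rintro rfl
    have : w' ∈ s g ∩ S := mem_inter.2 ⟨h7, h8⟩
    rw [hs, mem_singleton] at this
    exact h6 this
  have h4 := nb_card (G := G.erase g0) (fun g hg => h2 g (mem_of_mem_erase hg)) hw
  have h5 : deg s (G.erase g0) w + 1 = deg s G w := by
    unfold deg
    rw [filter_erase]
    have h6 : g0 ∈ G.filter (fun g => w ∈ s g) := mem_filter.2 ⟨hg0, hwg⟩
    rw [card_erase_of_mem h6]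
    have := card_pos.2 ⟨g0, h6⟩
    omega
  have h6 := card_le_card h3
  omega

end

theorem lab : LabStmt := by
  classical
  intro V B _ _ _ _ s G S hd h2
  -- proper labellings
  have ex : ∀ A ⊆ S, ∃ l : V → Fin 3, ∀ w ∈ A, ∀ w' ∈ A, w' ∈ nb s G S w → l w ≠ l w' := by
    intro A
    induction A using Finset.induction_on with
    | empty => exact fun _ => ⟨fun _ => 0, fun w hw => absurd hw (notMem_empty w)⟩
    | insert a A ha ih =>
      intro hA
      obtain ⟨l, hl⟩ := ih ((subset_insert a A).trans hA)
      have haS : a ∈ S := hA (mem_insert_self a A)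
      have h3 : ((nb s G S a).image l).card < Fintype.card (Fin 3) := by
        have h4 := (card_image_le (s := nb s G S a) (f := l)).trans (nb_card h2 haS)
        have h5 := hd a haS
        rw [Fintype.card_fin]
        omega
      obtain ⟨k, hk⟩ : ∃ k, k ∉ (nb s G S a).image l := by
        by_contra hcon
        push Not at hcon
        have : (nb s G S a).image l = univ := eq_univ_of_forall hcon
        rw [this, card_univ] at h3
        exact lt_irrefl _ h3
      refine ⟨Function.update l a k, ?_⟩
      intro w hw w' hw' hn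
      have hne : w' ≠ w := (mem_nb.1 hn).choose_spec.2.2.1
      rcases mem_insert.1 hw with rfl | hwA
      · rw [Function.update_self, Function.update_of_ne hne]
        intro h
        exact hk (mem_image.2 ⟨w', hn, h.symm⟩)
      · have hwa : w ≠ a := by
          rintro rfl
          exact ha hwA
        rcases mem_insert.1 hw' with rfl | hwA'
        · rw [Function.update_self, Function.update_of_ne hwa]
          intro h
          obtain ⟨g, h4, h5, h6, h7, h8⟩ := mem_nb.1 hn
          exact hk (mem_image.2 ⟨w, mem_nb.2 ⟨g, h4, h7, h6.symm, h5,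
            hA (mem_insert_of_mem hwA)⟩, h⟩)
        · have hwa' : w' ≠ a := by
            rintro rfl
            exact ha hwA'
          rw [Function.update_of_ne hwa, Function.update_of_ne hwa']
          exact hl w hwA w' hwA' hn
  -- minimal number of labels 2
  obtain ⟨l0, hl0⟩ := ex S (Subset.refl S)
  obtain ⟨l, hl, hmin⟩ := exists_min_image
    (univ.filter (fun l : V → Fin 3 => ∀ w ∈ S, ∀ w' ∈ S, w' ∈ nb s G S w → l w ≠ l w'))
    (fun l => (S.filter (fun w => l w = 2)).card) ⟨l0, mem_filter.2 ⟨mem_univ _, hl0⟩⟩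
  rw [mem_filter] at hl
  refine ⟨l, ?_, ?_⟩
  · intro g hg w hw w' hw' hne
    rw [mem_inter] at hw hw'
    exact hl.2 w hw.2 w' hw'.2 (mem_nb.2 ⟨g, hg, hw.1, hne.symm, hw'.1, hw'.2⟩)
  · intro g hg w hw hs h22
    have h3 := nb_card_one h2 hw (hd w hw) hg hs
    obtain ⟨k, hk2, hk⟩ : ∃ k : Fin 3, k ≠ 2 ∧ k ∉ (nb s G S w).image l := by
      have h4 := (card_image_le (s := nb s G S w) (f := l)).trans h3
      by_contra hcon
      push Not at hcon
      have h5 : ({0, 1} : Finset (Fin 3)) ⊆ (nb s G S w).image l := by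
        intro k hk
        apply hcon k
        rintro rfl
        revert hk
        decide
      have h6 := card_le_card h5
      have h7 : ({0, 1} : Finset (Fin 3)).card = 2 := by decide
      omega
    have h4 := hmin (Function.update l w k) (mem_filter.2 ⟨mem_univ _, ?_⟩)
    · have h5 : S.filter (fun x => Function.update l w k x = 2) ⊆
          (S.filter (fun x => l x = 2)).erase w := by
        intro x hx
        rw [mem_filter] at hx
        by_cases hxw : x = w
        · rw [hxw, Function.update_self] at hx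
          exact absurd hx.2 hk2
        · rw [Function.update_of_ne hxw] at hx
          exact mem_erase.2 ⟨hxw, mem_filter.2 hx⟩
      have h6 := card_le_card h5
      have h7 : w ∈ S.filter (fun x => l x = 2) := mem_filter.2 ⟨hw, h22⟩
      rw [card_erase_of_mem h7] at h6
      have h8 := card_pos.2 ⟨w, h7⟩
      have h9 := h4
      omega
    · intro x hx x' hx' hn
      have hne : x' ≠ x := (mem_nb.1 hn).choose_spec.2.2.1
      by_cases hxw : x = w
      · subst hxw
        rw [Function.update_self, Function.update_of_ne hne]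
        intro h
        exact hk (mem_image.2 ⟨x', hn, h.symm⟩)
      · by_cases hxw' : x' = w
        · subst hxw'
          rw [Function.update_self, Function.update_of_ne hxw]
          intro h
          obtain ⟨g, h4, h5, h6, h7, h8⟩ := mem_nb.1 hn
          exact hk (mem_image.2 ⟨x, mem_nb.2 ⟨g, h4, h7, h6.symm, h5, hx⟩, h⟩)
        · rw [Function.update_of_ne hxw, Function.update_of_ne hxw']
          exact hl.2 x hx x' hx' hn

end Pool.Agent.Helper29_CF.H46
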