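import Pool.Agent.Helper29_CF.Stmt

/-!
# SEL: selection lemma
-/

set_option autoImplicit false
set_option linter.unusedSectionVars false

namespace Pool.Agent.Helper29_CF.H46

open Finset Pool.Agent.Helper29_CF

/-- one stage, for a partial matching given as a relation -/
theorem stageR (hSt : StageStmt) {I J : Type} [Fintype I] [DecidableEq I] [DecidableEq J]
    (A : Finset I) (t : I → J) (R : I → I → Prop) (hsymm : ∀ i i', R i i' → R i' i)
    (hA : ∀ i i', R i i' → i ∈ A) (hne : ∀ i i', R i i' → i ≠ i')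
    (huniq : ∀ i i' i'', R i i' → R i i'' → i' = i'') :
    ∃ A' ⊆ A, (∀ i i', R i i' → i ∈ A' → i' ∉ A') ∧
      ∀ (Q : I → Prop) [DecidablePred Q], (∀ i i', R i i' → Q i) → ∀ j,
        (A.filter (fun i => t i = j ∧ Q i)).card ≤
          2 * (A'.filter (fun i => t i = j ∧ Q i)).card + 1 ∧
        ∀ i ∈ A, ¬ Q i → i ∈ A' := by
  classical
  set σ : I → I := fun i => if h : ∃ i', R i i' then h.choose else i with hσ
  have hR : ∀ i i', R i i' → σ i = i' := by
    intro i i' h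
    have hex : ∃ i', R i i' := ⟨i', h⟩
    simp only [hσ, dif_pos hex]
    exact huniq i _ _ hex.choose_spec h
  have hN : ∀ i, (¬ ∃ i', R i i') → σ i = i := by
    intro i h
    simp only [hσ, dif_neg h]
  have hinv : ∀ i, σ (σ i) = i := by
    intro i
    by_cases h : ∃ i', R i i'
    · obtain ⟨i', h'⟩ := h
      rw [hR i i' h', hR i' i (hsymm i i' h')]
    · rw [hN i h, hN i h]
  have hmem : ∀ i ∈ A, σ i ∈ A := by
    intro i hi
    by_cases h : ∃ i', R i i'
    · obtain ⟨i', h'⟩ := h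
      rw [hR i i' h']
      exact hA i' i (hsymm i i' h')
    · rw [hN i h]
      exact hi
  obtain ⟨A', hA', hun, hma, hcnt⟩ := hSt A t σ hinv hmem
  have hmatch : ∀ i, σ i ≠ i → ∃ i', R i i' := by
    intro i h
    by_contra hcon
    exact h (hN i hcon)
  refine ⟨A', hA', ?_, ?_⟩
  · intro i i' h hi
    have h1 := hR i i' h
    have h2 : σ i ≠ i := by
      rw [h1]
      exact (hne i i' h).symm
    rw [← h1]
    exact hma i hi h2
  · intro Q _ hQ j
    have hnQ : ∀ i ∈ A, ¬ Q i → i ∈ A' := by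
      intro i hi hq
      refine hun i hi (hN i ?_)
      rintro ⟨i', h⟩
      exact hq (hQ i i' h)
    refine ⟨?_, hnQ⟩
    have e1 : (A.filter (fun i => t i = j ∧ Q i)).card =
        (A.filter (fun i => t i = j ∧ σ i ≠ i)).card +
        (A.filter (fun i => t i = j ∧ Q i ∧ σ i = i)).card := by
      rw [← card_union_of_disjoint]
      · congr 1
        ext i
        simp only [mem_union, mem_filter]
        constructor
        · rintro ⟨h1, h2, h3⟩
          by_cases h4 : σ i = i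
          · exact Or.inr ⟨h1, h2, h3, h4⟩
          · exact Or.inl ⟨h1, h2, h4⟩
        · rintro (⟨h1, h2, h3⟩ | ⟨h1, h2, h3, h4⟩)
          · obtain ⟨i', h⟩ := hmatch i h3
            exact ⟨h1, h2, hQ i i' h⟩
          · exact ⟨h1, h2, h3⟩
      · rw [disjoint_filter]
        rintro i _ ⟨_, h1⟩ ⟨_, _, h2⟩
        exact h1 h2
    have e2 : (A'.filter (fun i => t i = j ∧ Q i)).card =
        (A'.filter (fun i => t i = j ∧ σ i ≠ i)).card +
        (A'.filter (fun i => t i = j ∧ Q i ∧ σ i = i)).card := by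
      rw [← card_union_of_disjoint]
      · congr 1
        ext i
        simp only [mem_union, mem_filter]
        constructor
        · rintro ⟨h1, h2, h3⟩
          by_cases h4 : σ i = i
          · exact Or.inr ⟨h1, h2, h3, h4⟩
          · exact Or.inl ⟨h1, h2, h4⟩
        · rintro (⟨h1, h2, h3⟩ | ⟨h1, h2, h3, h4⟩)
          · obtain ⟨i', h⟩ := hmatch i h3
            exact ⟨h1, h2, hQ i i' h⟩
          · exact ⟨h1, h2, h3⟩
      · rw [disjoint_filter]
        rintro i _ ⟨_, h1⟩ ⟨_, _, h2⟩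
        exact h1 h2
    have e3 : (A.filter (fun i => t i = j ∧ Q i ∧ σ i = i)).card =
        (A'.filter (fun i => t i = j ∧ Q i ∧ σ i = i)).card := by
      congr 1
      ext i
      simp only [mem_filter]
      constructor
      · rintro ⟨h1, h2, h3, h4⟩
        exact ⟨hun i h1 h4, h2, h3, h4⟩
      · rintro ⟨h1, h2⟩
        exact ⟨hA' h1, h2⟩
    have e4 := hcnt j
    omega

section

variable {V B : Type} [Fintype V] [DecidableEq V] [Fintype B] [DecidableEq B]

/-- the block of the element has a point of `S` with label `l` -/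
def hl (s : B → Finset V) (S : Finset V) (lab : V → Fin 3) (l : Fin 3) (z : V × B) : Prop :=
  ∃ w ∈ S, w ∈ s z.2 ∧ lab w = l

theorem stageL (hSt : StageStmt) {J : Type} [DecidableEq J] {s : B → Finset V} {G : Finset B}
    {S : Finset V} {lab : V → Fin 3} (hd : ∀ w ∈ S, deg s G w ≤ 2)
    (hlab : ∀ g ∈ G, ∀ w ∈ s g ∩ S, ∀ w' ∈ s g ∩ S, w ≠ w' → lab w ≠ lab w')
    (tok : V × B → J) (A : Finset (V × B)) (hAG : ∀ z ∈ A, z.2 ∈ G)
    (huq : ∀ z ∈ A, ∀ z' ∈ A, z.2 = z'.2 → z = z') (l : Fin 3)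
    [DecidablePred (hl s S lab l)] :
    ∃ A' ⊆ A, (∀ z ∈ A', ∀ z' ∈ A', ∀ w ∈ S, lab w = l → w ∈ s z.2 → w ∈ s z'.2 → z = z') ∧
      ∀ j, (A.filter (fun z => tok z = j ∧ hl s S lab l z)).card ≤
          2 * (A'.filter (fun z => tok z = j ∧ hl s S lab l z)).card + 1 ∧
        ∀ z ∈ A, ¬ hl s S lab l z → z ∈ A' := by
  obtain ⟨A', hA', h1, h2⟩ := stageR hSt A tok
    (fun z z' => z ∈ A ∧ z' ∈ A ∧ z ≠ z' ∧ ∃ w ∈ S, lab w = l ∧ w ∈ s z.2 ∧ w ∈ s z'.2)
    (by
      rintro z z' ⟨h1, h2, h3, w, hw, h4, h5, h6⟩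
      exact ⟨h2, h1, h3.symm, w, hw, h4, h6, h5⟩)
    (fun z z' h => h.1) (fun z z' h => h.2.2.1)
    (by
      rintro z z' z'' ⟨h1, h2, h3, w, hw, h4, h5, h6⟩ ⟨_, h2', h3', w', hw', h4', h5', h6'⟩
      have hww : w = w' := by
        by_contra hne
        exact hlab z.2 (hAG z h1) w (mem_inter.2 ⟨h5, hw⟩) w' (mem_inter.2 ⟨h5', hw'⟩) hne
          (h4.trans h4'.symm)
      subst hww
      have e1 : z.2 ≠ z'.2 := fun h => h3 (huq z h1 z' h2 h)
      have e2 : z.2 ≠ z''.2 := fun h => h3' (huq z h1 z'' h2' h)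
      by_contra hcon
      have e3 : z'.2 ≠ z''.2 := fun h => hcon (huq z' h2 z'' h2' h)
      have h7 : ({z.2, z'.2, z''.2} : Finset B) ⊆ G.filter (fun g => w ∈ s g) := by
        intro g hg
        simp only [mem_insert, mem_singleton] at hg
        rcases hg with rfl | rfl | rfl
        · exact mem_filter.2 ⟨hAG z h1, h5⟩
        · exact mem_filter.2 ⟨hAG z' h2, h6⟩
        · exact mem_filter.2 ⟨hAG z'' h2', h6'⟩
      have h8 := card_le_card h7
      rw [card_eq_three.2 ⟨z.2, z'.2, z''.2, e1, e2, e3, rfl⟩] at h8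
      have h9 := hd w hw
      unfold deg at h9
      omega)
  refine ⟨A', hA', ?_, ?_⟩
  · intro z hz z' hz' w hw h3 h4 h5
    by_contra hne
    exact h1 z z' ⟨hA' hz, hA' hz', hne, w, hw, h3, h4, h5⟩ hz hz'
  · exact h2 (hl s S lab l) (by
      rintro z z' ⟨_, _, _, w, hw, h4, h5, _⟩
      exact ⟨w, hw, h5, h4⟩)

end

/-- SEL with the additional hypothesis `T.Nonempty` -/
theorem sel_ne (hSt : StageStmt) (hLab : LabStmt) {V B J : Type} [Fintype V] [DecidableEq V]
    [Fintype B] [DecidableEq B] [DecidableEq J]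
    (s : B → Finset V) (G : Finset B) (S : Finset V) (T : Finset J)
    (inc : J → Finset (V × B)) (hs3 : ∀ g, (s g).card ≤ 3) (hd : ∀ w ∈ S, deg s G w ≤ 2)
    (hinc : ∀ t ∈ T, ∀ z ∈ inc t, z.2 ∈ G ∧ z.1 ∈ s z.2 ∧ z.1 ∉ S ∧ (s z.2 ∩ S).Nonempty)
    (huni : ∀ t ∈ T, ∀ t' ∈ T, ∀ z ∈ inc t, ∀ z' ∈ inc t', z.1 = z'.1 → t = t')
    (h8 : ∀ t ∈ T, 8 ≤ (inc t).card) (hT : T.Nonempty) :
    ∃ σ : J → V × B, (∀ t ∈ T, σ t ∈ inc t) ∧
      ∀ t ∈ T, ∀ t' ∈ T, ∀ w ∈ S, w ∈ s (σ t).2 → w ∈ s (σ t').2 → (σ t).2 = (σ t').2 := by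
  classical
  obtain ⟨t0, ht0⟩ := hT
  set A0 : Finset (V × B) := T.biUnion inc with hA0
  -- tokens of the elements
  have htok : ∃ tok : V × B → J, ∀ t ∈ T, ∀ z ∈ inc t, tok z = t := by
    refine ⟨fun z => if h : ∃ t ∈ T, z ∈ inc t then h.choose else t0, ?_⟩
    intro t ht z hz
    have hex : ∃ t ∈ T, z ∈ inc t := ⟨t, ht, hz⟩
    simp only [dif_pos hex]
    exact huni _ hex.choose_spec.1 t ht z hex.choose_spec.2 z hz rfl
  obtain ⟨tok, htok⟩ := htok
  have hfib : ∀ z ∈ A0, ∀ t, tok z = t → z ∈ inc t := by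
    intro z hz t ht
    obtain ⟨t', ht', hz'⟩ := mem_biUnion.1 hz
    rw [← ht, htok t' ht' z hz']
    exact hz'
  set G' : Finset B := G.filter (fun g => (s g ∩ S).card ≤ 2) with hG'
  have hd' : ∀ w ∈ S, deg s G' w ≤ 2 := by
    intro w hw
    refine le_trans (card_le_card ?_) (hd w hw)
    exact filter_subset_filter _ (filter_subset _ _)
  obtain ⟨lab, hlab1, hlab2⟩ := hLab s G' S hd' (fun g hg => (mem_filter.1 hg).2)
  have hsplit : ∀ g, (s g ∩ S).card + (s g \ S).card ≤ 3 := by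
    intro g
    rw [card_inter_add_card_sdiff]
    exact hs3 g
  have hel : ∀ z ∈ A0, z.2 ∈ G' ∧ z.1 ∈ s z.2 \ S ∧ (s z.2 ∩ S).Nonempty := by
    intro z hz
    obtain ⟨t, ht, hzt⟩ := mem_biUnion.1 hz
    obtain ⟨h1, h2, h3, h4⟩ := hinc t ht z hzt
    have h5 : z.1 ∈ s z.2 \ S := mem_sdiff.2 ⟨h2, h3⟩
    refine ⟨mem_filter.2 ⟨h1, ?_⟩, h5, h4⟩
    have h6 := hsplit z.2
    have h7 := card_pos.2 ⟨z.1, h5⟩
    omega
  -- stage 0: pairs of the same block
  obtain ⟨A1, hA1, hun1, hc1⟩ := stageR hSt A0 tok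
    (fun z z' => z ∈ A0 ∧ z' ∈ A0 ∧ z ≠ z' ∧ z.2 = z'.2)
    (fun z z' h => ⟨h.2.1, h.1, h.2.2.1.symm, h.2.2.2.symm⟩)
    (fun z z' h => h.1) (fun z z' h => h.2.2.1)
    (by
      rintro z z' z'' ⟨h1, h2, h3, h4⟩ ⟨_, h2', h3', h4'⟩
      by_contra hcon
      have e1 : z.1 ≠ z'.1 := fun h => h3 (Prod.ext h h4)
      have e2 : z.1 ≠ z''.1 := fun h => h3' (Prod.ext h h4')
      have e3 : z'.1 ≠ z''.1 := fun h => hcon (Prod.ext h (h4.symm.trans h4'))
      have h7 : ({z.1, z'.1, z''.1} : Finset V) ⊆ s z.2 \ S := by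
        intro x hx
        simp only [mem_insert, mem_singleton] at hx
        rcases hx with rfl | rfl | rfl
        · exact (hel z h1).2.1
        · rw [h4]
          exact (hel z' h2).2.1
        · rw [h4']
          exact (hel z'' h2').2.1
      have h8 := card_le_card h7
      rw [card_eq_three.2 ⟨_, _, _, e1, e2, e3, rfl⟩] at h8
      have h9 := hsplit z.2
      have h10 := card_pos.2 (hel z h1).2.2
      omega)
  have huq1 : ∀ z ∈ A1, ∀ z' ∈ A1, z.2 = z'.2 → z = z' := by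
    intro z hz z' hz' h
    by_contra hne
    exact hun1 z z' ⟨hA1 hz, hA1 hz', hne, h⟩ hz hz'
  have hc1' := hc1 (fun z => (s z.2 ∩ S).card ≤ 1) (by
    rintro z z' ⟨h1, h2, h3, h4⟩
    have e1 : z.1 ≠ z'.1 := fun h => h3 (Prod.ext h h4)
    have h7 : ({z.1, z'.1} : Finset V) ⊆ s z.2 \ S := by
      intro x hx
      simp only [mem_insert, mem_singleton] at hx
      rcases hx with rfl | rfl
      · exact (hel z h1).2.1
      · rw [h4]
        exact (hel z' h2).2.1
    have h8 := card_le_card h7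
    rw [card_pair e1] at h8
    have h9 := hsplit z.2
    change (s z.2 ∩ S).card ≤ 1
    omega)
  -- stages 2, 1, 0
  obtain ⟨A2, hA2, hun2, hc2⟩ := stageL hSt hd' hlab1 tok A1 (fun z hz => (hel z (hA1 hz)).1)
    huq1 2
  obtain ⟨A3, hA3, hun3, hc3⟩ := stageL hSt hd' hlab1 tok A2
    (fun z hz => (hel z (hA1 (hA2 hz))).1)
    (fun z hz z' hz' h => huq1 z (hA2 hz) z' (hA2 hz') h) 1
  obtain ⟨A4, hA4, hun4, hc4⟩ := stageL hSt hd' hlab1 tok A3
    (fun z hz => (hel z (hA1 (hA2 (hA3 hz)))).1)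
    (fun z hz z' hz' h => huq1 z (hA2 (hA3 hz)) z' (hA2 (hA3 hz')) h) 0
  have hsub4 : ∀ z ∈ A4, z ∈ A0 := fun z hz => hA1 (hA2 (hA3 (hA4 hz)))
  have hfin : ∀ z ∈ A4, ∀ z' ∈ A4, ∀ w ∈ S, w ∈ s z.2 → w ∈ s z'.2 → z = z' := by
    intro z hz z' hz' w hw h1 h2
    have h3 : lab w = 0 ∨ lab w = 1 ∨ lab w = 2 := by
      generalize lab w = k
      revert k
      decide
    rcases h3 with h3 | h3 | h3
    · exact hun4 z hz z' hz' w hw h3 h1 h2
    · exact hun3 z (hA4 hz) z' (hA4 hz') w hw h3 h1 h2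
    · exact hun2 z (hA3 (hA4 hz)) z' (hA3 (hA4 hz')) w hw h3 h1 h2
  have hsurv : ∀ t ∈ T, ∃ z ∈ A4, tok z = t := by
    intro t ht
    by_contra hcon
    push Not at hcon
    -- the final set has no element of the token
    have z4 : ∀ P : V × B → Prop, ∀ [DecidablePred P],
        (A4.filter (fun z => tok z = t ∧ P z)).card = 0 := by
      intro P _
      rw [card_eq_zero, filter_eq_empty_iff]
      rintro z hz ⟨h1, _⟩
      exact hcon z hz h1
    have splitc : ∀ (A : Finset (V × B)) (P Q : V × B → Prop) [DecidablePred P]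
        [DecidablePred Q], (A.filter (fun z => tok z = t ∧ P z)).card ≤
        (A.filter (fun z => tok z = t ∧ (P z ∧ Q z))).card +
        (A.filter (fun z => tok z = t ∧ (P z ∧ ¬ Q z))).card := by
      intro A P Q _ _
      rw [← card_union_of_disjoint]
      · refine card_le_card fun z hz => ?_
        rw [mem_filter] at hz
        rw [mem_union, mem_filter, mem_filter]
        by_cases h : Q z
        · exact Or.inl ⟨hz.1, hz.2.1, hz.2.2, h⟩
        · exact Or.inr ⟨hz.1, hz.2.1, hz.2.2, h⟩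
      · rw [disjoint_filter]
        rintro z _ ⟨_, _, h1⟩ ⟨_, _, h2⟩
        exact h2 h1
    have mono : ∀ (A A' : Finset (V × B)) (P P' : V × B → Prop) [DecidablePred P]
        [DecidablePred P'], (∀ z ∈ A, tok z = t → P z → z ∈ A' ∧ P' z) →
        (A.filter (fun z => tok z = t ∧ P z)).card ≤
        (A'.filter (fun z => tok z = t ∧ P' z)).card := by
      intro A A' P P' _ _ h
      refine card_le_card fun z hz => ?_
      rw [mem_filter] at hz ⊢
      obtain ⟨h1, h2⟩ := h z hz.1 hz.2.1 hz.2.2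
      exact ⟨h1, hz.2.1, h2⟩
    have hsing : ∀ z ∈ A0, (s z.2 ∩ S).card ≤ 1 → ¬ hl s S lab 2 z := by
      rintro z hz h1 ⟨w, hw, h2, h3⟩
      have h4 : w ∈ s z.2 ∩ S := mem_inter.2 ⟨h2, hw⟩
      have h5 : s z.2 ∩ S = {w} := by
        have h6 : (s z.2 ∩ S).card = 1 := le_antisymm h1 (card_pos.2 ⟨w, h4⟩)
        obtain ⟨y, hy⟩ := card_eq_one.1 h6
        rw [hy, mem_singleton] at h4
        rw [hy, h4]
      exact hlab2 z.2 (hel z hz).1 w hw h5 h3
    -- C0
    have C0 : 8 ≤ (A0.filter (fun z => tok z = t ∧ True)).card := by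
      refine (h8 t ht).trans (card_le_card fun z hz => ?_)
      exact mem_filter.2 ⟨mem_biUnion.2 ⟨t, ht, hz⟩, htok t ht z hz, trivial⟩
    have C0' := splitc A0 (fun _ => True) (fun z => (s z.2 ∩ S).card ≤ 1)
    have C1 : (A0.filter (fun z => tok z = t ∧ (True ∧ (s z.2 ∩ S).card ≤ 1))).card ≤
        (A0.filter (fun z => tok z = t ∧ (s z.2 ∩ S).card ≤ 1)).card :=
      mono A0 A0 _ _ (fun z hz _ h => ⟨hz, h.2⟩)
    have C1' := (hc1' t).1
    have C1'' : (A0.filter (fun z => tok z = t ∧ (True ∧ ¬ (s z.2 ∩ S).card ≤ 1))).card ≤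
        (A1.filter (fun z => tok z = t ∧ ¬ (s z.2 ∩ S).card ≤ 1)).card :=
      mono A0 A1 _ _ (fun z hz _ h => ⟨(hc1' t).2 z hz h.2, h.2⟩)
    -- C2
    have C2 := splitc A1 (fun z => ¬ (s z.2 ∩ S).card ≤ 1) (hl s S lab 2)
    have C2a : (A1.filter (fun z => tok z = t ∧ (¬ (s z.2 ∩ S).card ≤ 1 ∧
        hl s S lab 2 z))).card ≤ (A1.filter (fun z => tok z = t ∧ hl s S lab 2 z)).card :=
      mono A1 A1 _ _ (fun z hz _ h => ⟨hz, h.2⟩)
    have C2b : (A1.filter (fun z => tok z = t ∧ (¬ (s z.2 ∩ S).card ≤ 1 ∧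
        ¬ hl s S lab 2 z))).card ≤ (A2.filter (fun z => tok z = t ∧
        (¬ (s z.2 ∩ S).card ≤ 1 ∧ ¬ hl s S lab 2 z))).card :=
      mono A1 A2 _ _ (fun z hz _ h => ⟨(hc2 t).2 z hz h.2, h⟩)
    have C2c := (hc2 t).1
    have C2d : (A1.filter (fun z => tok z = t ∧ (s z.2 ∩ S).card ≤ 1)).card ≤
        (A2.filter (fun z => tok z = t ∧ (s z.2 ∩ S).card ≤ 1)).card :=
      mono A1 A2 _ _ (fun z hz _ h => ⟨(hc2 t).2 z hz (hsing z (hA1 hz) h), h⟩)
    -- C3
    have C3 : (A2.filter (fun z => tok z = t ∧ (s z.2 ∩ S).card ≤ 1)).card +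
        (A2.filter (fun z => tok z = t ∧ (¬ (s z.2 ∩ S).card ≤ 1 ∧
          ¬ hl s S lab 2 z))).card +
        (A2.filter (fun z => tok z = t ∧ hl s S lab 2 z)).card ≤
        (A2.filter (fun z => tok z = t ∧ True)).card := by
      rw [← card_union_of_disjoint, ← card_union_of_disjoint]
      · refine card_le_card fun z hz => ?_
        rw [mem_union, mem_union, mem_filter, mem_filter, mem_filter] at hz
        rw [mem_filter]
        rcases hz with (h | h) | h
        · exact ⟨h.1, h.2.1, trivial⟩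
        · exact ⟨h.1, h.2.1, trivial⟩
        · exact ⟨h.1, h.2.1, trivial⟩
      · rw [disjoint_left]
        intro z hz hz2
        rw [mem_union, mem_filter, mem_filter] at hz
        rw [mem_filter] at hz2
        rcases hz with h | h
        · exact hsing z (hA1 (hA2 h.1)) h.2.2 hz2.2.2
        · exact h.2.2.2 hz2.2.2
      · rw [disjoint_filter]
        rintro z _ ⟨_, h1⟩ ⟨_, h2, _⟩
        exact h2 h1
    -- C4
    have C4 := splitc A2 (fun _ => True) (hl s S lab 1)
    have C4a : (A2.filter (fun z => tok z = t ∧ (True ∧ hl s S lab 1 z))).card ≤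
        (A2.filter (fun z => tok z = t ∧ hl s S lab 1 z)).card :=
      mono A2 A2 _ _ (fun z hz _ h => ⟨hz, h.2⟩)
    have C4b : (A2.filter (fun z => tok z = t ∧ (True ∧ ¬ hl s S lab 1 z))).card ≤
        (A3.filter (fun z => tok z = t ∧ ¬ hl s S lab 1 z)).card :=
      mono A2 A3 _ _ (fun z hz _ h => ⟨(hc3 t).2 z hz h.2, h.2⟩)
    have C4c := (hc3 t).1
    -- C5
    have C5 := (hc4 t).1
    rw [z4] at C5
    have hall0 : ∀ z ∈ A3, tok z = t → hl s S lab 0 z := by
      intro z hz h1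
      by_contra h2
      exact hcon z ((hc4 t).2 z hz h2) h1
    have C5a : (A3.filter (fun z => tok z = t ∧ hl s S lab 1 z)).card +
        (A3.filter (fun z => tok z = t ∧ ¬ hl s S lab 1 z)).card ≤
        (A3.filter (fun z => tok z = t ∧ hl s S lab 0 z)).card := by
      rw [← card_union_of_disjoint]
      · refine card_le_card fun z hz => ?_
        rw [mem_union, mem_filter, mem_filter] at hz
        rw [mem_filter]
        rcases hz with h | h
        · exact ⟨h.1, h.2.1, hall0 z h.1 h.2.1⟩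
        · exact ⟨h.1, h.2.1, hall0 z h.1 h.2.1⟩
      · rw [disjoint_filter]
        rintro z _ ⟨_, h1⟩ ⟨_, h2⟩
        exact h2 h1
    -- C6
    have C6 : (A3.filter (fun z => tok z = t ∧ hl s S lab 1 z)).card ≤
        (A2.filter (fun z => tok z = t ∧ (¬ (s z.2 ∩ S).card ≤ 1 ∧
          ¬ hl s S lab 2 z))).card := by
      refine mono A3 A2 _ _ (fun z hz h1 h2 => ⟨hA3 hz, ?_, ?_⟩)
      · obtain ⟨w1, hw1, h3, h4⟩ := h2
        obtain ⟨w0, hw0, h5, h6⟩ := hall0 z hz h1
        have hne : w0 ≠ w1 := by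
          rintro rfl
          rw [h4] at h6
          exact absurd h6 (by decide)
        have h7 : ({w0, w1} : Finset V) ⊆ s z.2 ∩ S := by
          intro x hx
          simp only [mem_insert, mem_singleton] at hx
          rcases hx with rfl | rfl
          · exact mem_inter.2 ⟨h5, hw0⟩
          · exact mem_inter.2 ⟨h3, hw1⟩
        have h8 := card_le_card h7
        rw [card_pair hne] at h8
        omega
      · rintro ⟨w2, hw2, h3', h4'⟩
        obtain ⟨w1, hw1, h3, h4⟩ := h2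
        obtain ⟨w0, hw0, h5, h6⟩ := hall0 z hz h1
        have n01 : w0 ≠ w1 := by
          rintro rfl
          rw [h4] at h6
          exact absurd h6 (by decide)
        have n02 : w0 ≠ w2 := by
          rintro rfl
          rw [h4'] at h6
          exact absurd h6 (by decide)
        have n12 : w1 ≠ w2 := by
          rintro rfl
          rw [h4'] at h4
          exact absurd h4 (by decide)
        have h7 : ({w0, w1, w2} : Finset V) ⊆ s z.2 ∩ S := by
          intro x hx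
          simp only [mem_insert, mem_singleton] at hx
          rcases hx with rfl | rfl | rfl
          · exact mem_inter.2 ⟨h5, hw0⟩
          · exact mem_inter.2 ⟨h3, hw1⟩
          · exact mem_inter.2 ⟨h3', hw2⟩
        have h8 := card_le_card h7
        rw [card_eq_three.2 ⟨_, _, _, n01, n02, n12, rfl⟩] at h8
        have h9 := (mem_filter.1 (hel z (hA1 (hA2 (hA3 hz)))).1).2
        omega
    omega
  -- the selection
  obtain ⟨z0, hz0, -⟩ := hsurv t0 ht0
  refine ⟨fun t => if h : ∃ z ∈ A4, tok z = t then h.choose else z0, ?_, ?_⟩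
  · intro t ht
    have h := hsurv t ht
    simp only [dif_pos h]
    exact hfib _ (hsub4 _ h.choose_spec.1) t h.choose_spec.2
  · intro t ht t' ht' w hw
    have h := hsurv t ht
    have h' := hsurv t' ht'
    simp only [dif_pos h, dif_pos h']
    intro h1 h2
    rw [hfin _ h.choose_spec.1 _ h'.choose_spec.1 w hw h1 h2]

theorem sel (hSt : StageStmt) (hLab : LabStmt) : SelStmt := by
  intro V B J _ _ _ _ _ s G S T inc hs3 hd hinc huni h8 hT
  exact sel_ne hSt hLab s G S T inc hs3 hd hinc huni h8 hT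

end Pool.Agent.Helper29_CF.H46
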